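import Mathlib

set_option autoImplicit false

namespace Pool.Agent.H471.CG

/-- The group ring `ℤ[ℤ^r]` of the weight lattice `ℤ^r` of `sp_{2r}(ℂ)` (type `C_r`); the element
`single κ 1` is the formal exponential `e^κ = x_1^{κ_1} ⋯ x_r^{κ_r}`. -/
abbrev CharRing (r : ℕ) : Type := AddMonoidAlgebra ℤ (Fin r → ℤ)

/-- The monomial `x_i ^ k`. -/
noncomputable def xp {r : ℕ} (i : Fin r) (k : ℤ) : CharRing r :=
  AddMonoidAlgebra.single (Pi.single i k) 1

/-- The Weyl alternant of type `C_r`: `A_μ = det (x_i ^ {μ_j} - x_i ^ {-μ_j})`, which is the sum of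
`sgn(w) e^{w μ}` over all signed permutations `w`. -/
noncomputable def alt {r : ℕ} (μ : Fin r → ℤ) : CharRing r :=
  Matrix.det (Matrix.of fun i j => xp i (μ j) - xp i (-μ j))

/-- Half the sum of the positive roots of type `C_r`: `ρ = (r, r - 1, …, 1)`. -/
def rho (r : ℕ) : Fin r → ℤ := fun i => (r : ℤ) - (i : ℕ)

/-- Dominant integral weights of type `C_r`: `κ_1 ≥ κ_2 ≥ ⋯ ≥ κ_r ≥ 0`. -/
def Dominant {r : ℕ} (κ : Fin r → ℤ) : Prop := (∀ i j, i ≤ j → κ j ≤ κ i) ∧ ∀ i, 0 ≤ κ i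

/-- `χ` is the character of the irreducible `sp_{2r}(ℂ)`-module `V_κ` of highest weight `κ`, as
given by Weyl's character formula `χ · A_ρ = A_{κ + ρ}`. -/
def IsIrrChar {r : ℕ} (κ : Fin r → ℤ) (χ : CharRing r) : Prop := χ * alt (rho r) = alt (κ + rho r)

/-- `x` is the Clebsch-Gordan coefficient `c_{lam mu}^{nu}`, the multiplicity of `V_nu` in
`V_lam ⊗ V_mu`: the product of the characters of `V_lam` and `V_mu` is the combination
`∑_κ m_κ χ_κ` of characters of irreducible modules, and `m_nu = x`. -/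
def IsCG {r : ℕ} (lam mu nu : Fin r → ℤ) (x : ℤ) : Prop :=
  ∃ (χ : (Fin r → ℤ) → CharRing r) (m : (Fin r → ℤ) →₀ ℤ),
    (∀ κ, Dominant κ → IsIrrChar κ (χ κ)) ∧
    (∀ κ ∈ m.support, Dominant κ) ∧
    χ lam * χ mu = m.sum (fun κ n => n • χ κ) ∧
    m nu = x

end Pool.Agent.H471.CG
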