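import Mathlib
import Pool.Agent.H471.CGDefs

set_option autoImplicit false

open Polynomial

namespace Pool.Agent.H471.CG

section basic
variable {r : ℕ}

lemma xp_add (i : Fin r) (j k : ℤ) : xp i (j + k) = xp i j * xp i k := by
  unfold xp
  rw [AddMonoidAlgebra.single_mul_single, ← Pi.single_add, one_mul]

lemma xp_zero (i : Fin r) : xp i 0 = 1 := by
  unfold xp
  rw [Pi.single_zero, AddMonoidAlgebra.one_def]

lemma xp_mul_neg (i : Fin r) (k : ℤ) : xp i k * xp i (-k) = 1 := by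
  rw [← xp_add, add_neg_cancel, xp_zero]

lemma xp_nat (i : Fin r) (n : ℕ) : xp i (n : ℤ) = xp i 1 ^ n := by
  induction n with
  | zero => simp [xp_zero]
  | succ n ih => push_cast; rw [xp_add, ih, pow_succ]

lemma xp_neg_nat (i : Fin r) (n : ℕ) : xp i (-(n : ℤ)) = xp i (-1) ^ n := by
  induction n with
  | zero => simp [xp_zero]
  | succ n ih => push_cast; rw [neg_add, xp_add, ih, pow_succ]

end basic

/-- Chebyshev polynomials -/
noncomputable def S : ℕ → ℤ[X]
  | 0 => 0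
  | 1 => 1
  | (n + 2) => X * S (n + 1) - S n

lemma S_aeval {A : Type*} [CommRing A] (u v : A) (h : u * v = 1) (n : ℕ) :
    u ^ n - v ^ n = (u - v) * aeval (u + v) (S n) := by
  induction n using Nat.strong_induction_on with
  | _ n ih =>
    match n with
    | 0 => simp [S]
    | 1 => simp [S]
    | (n + 2) =>
      have h1 := ih (n + 1) (by omega)
      have h2 := ih n (by omega)
      rw [S, map_sub, map_mul, aeval_X, mul_sub, ← h2, mul_left_comm, ← h1]
      linear_combination (-u ^ n + v ^ n) * h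

lemma div_diff {A : Type*} [CommRing A] (p : A[X]) (y0 y1 y2 : A) :
    ∃ b c : A, p.eval y1 = p.eval y0 + (y1 - y0) * b ∧
      p.eval y2 = p.eval y0 + (y2 - y0) * (b + (y2 - y1) * c) := by
  have h0 : ∀ (f : A[X]) (a : A), ∃ g : A[X], f = C (f.eval a) + (X - C a) * g := by
    intro f a
    have h1 : (X - C a) ∣ f - C (f.eval a) := by
      rw [dvd_iff_isRoot]; simp
    obtain ⟨g, hg⟩ := h1
    exact ⟨g, by rw [← hg]; ring⟩
  obtain ⟨g, hg⟩ := h0 p y0
  obtain ⟨k, hk⟩ := h0 g y1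
  refine ⟨g.eval y1, k.eval y2, ?_, ?_⟩
  · conv_lhs => rw [hg]
    simp
  · conv_lhs => rw [hg, hk]
    simp

lemma det_dvd {A : Type*} [CommRing A] (p : Fin 3 → A[X]) (y : Fin 3 → A) :
    (y 0 - y 1) * (y 0 - y 2) * (y 1 - y 2) ∣
      Matrix.det (Matrix.of fun i j => (p j).eval (y i)) := by
  choose b c h1 h2 using fun j => div_diff (p j) (y 0) (y 1) (y 2)
  refine ⟨- Matrix.det !![(p 0).eval (y 0), (p 1).eval (y 0), (p 2).eval (y 0);
    b 0, b 1, b 2; c 0, c 1, c 2], ?_⟩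
  rw [Matrix.det_fin_three, Matrix.det_fin_three]
  simp only [Matrix.of_apply, h1, h2, Matrix.cons_val', Matrix.cons_val_zero, Matrix.cons_val_one,
    Matrix.cons_val]
  ring

lemma rho3 : rho 3 = ![3, 2, 1] := by
  ext i; fin_cases i <;> simp [rho]

/-- Weyl denominator, first form -/
lemma alt_rho : alt (rho 3) =
    (xp 0 1 - xp 0 (-1)) * (xp 1 1 - xp 1 (-1)) * (xp 2 1 - xp 2 (-1)) *
      (((xp 0 1 + xp 0 (-1)) - (xp 1 1 + xp 1 (-1))) *
      ((xp 0 1 + xp 0 (-1)) - (xp 2 1 + xp 2 (-1))) *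
      ((xp 1 1 + xp 1 (-1)) - (xp 2 1 + xp 2 (-1)))) := by
  have h3 : ∀ i : Fin 3, xp i 3 - xp i (-3) =
      (xp i 1 - xp i (-1)) * ((xp i 1 + xp i (-1)) ^ 2 - 1) := by
    intro i
    have h := xp_mul_neg i 1
    have e1 := xp_nat i 3
    have e2 := xp_neg_nat i 3
    push_cast at e1 e2
    rw [e1, e2]
    linear_combination (xp i (-1) - xp i 1) * h
  have h2 : ∀ i : Fin 3, xp i 2 - xp i (-2) =
      (xp i 1 - xp i (-1)) * (xp i 1 + xp i (-1)) := by
    intro i
    have e1 := xp_nat i 2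
    have e2 := xp_neg_nat i 2
    push_cast at e1 e2
    rw [e1, e2]
    ring
  unfold alt
  rw [rho3, Matrix.det_fin_three]
  simp only [Matrix.of_apply, Matrix.cons_val_zero, Matrix.cons_val_one, Matrix.cons_val, h3, h2]
  ring

lemma alt_rho_dvd (n : Fin 3 → ℕ) : alt (rho 3) ∣ alt (fun i => (n i : ℤ)) := by
  have h := det_dvd (fun j => (S (n j)).map (Int.castRingHom (CharRing 3)))
    (fun i => xp i 1 + xp i (-1))
  obtain ⟨q, hq⟩ := h
  rw [alt_rho]
  refine ⟨q, ?_⟩
  have key : alt (fun i => (n i : ℤ)) =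
      (xp 0 1 - xp 0 (-1)) * (xp 1 1 - xp 1 (-1)) * (xp 2 1 - xp 2 (-1)) *
      Matrix.det (Matrix.of fun i j : Fin 3 =>
        ((S (n j)).map (Int.castRingHom (CharRing 3))).eval (xp i 1 + xp i (-1))) := by
    unfold alt
    have h1 : ∀ i j : Fin 3, xp i (n j : ℤ) - xp i (-(n j : ℤ)) = (xp i 1 - xp i (-1)) *
        ((S (n j)).map (Int.castRingHom (CharRing 3))).eval (xp i 1 + xp i (-1)) := by
      intro i j
      rw [xp_nat, xp_neg_nat, S_aeval _ _ (xp_mul_neg i 1), aeval_def, eval_map]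
      rfl
    simp only [Matrix.det_fin_three, Matrix.of_apply, h1]
    ring
  rw [key, hq]
  ring

end Pool.Agent.H471.CG
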