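import Mathlib
import Pool.Agent.H471.CGA

set_option autoImplicit false

open Polynomial

namespace Pool.Agent.H471.CG

/-! ### A partition function -/

def sumTo (u : ℕ → ℤ) : ℕ → ℤ
  | 0 => 0
  | n + 1 => sumTo u n + u n

lemma sumTo_succ' (u : ℕ → ℤ) (n : ℕ) : sumTo u (n + 1) = u 0 + sumTo (fun k => u (k + 1)) n := by
  induction n with
  | zero => simp [sumTo]
  | succ n ih => rw [sumTo, ih, sumTo]; ring

lemma tele (u : ℕ → ℤ) (a : ℤ) (h : ∀ k : ℕ, a < k → u k = 0) :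
    sumTo u (a.toNat + 1) - sumTo (fun k => u (k + 1)) ((a - 1).toNat + 1) = u 0 := by
  rcases le_or_gt a 0 with ha | ha
  · have h1 : a.toNat = 0 := by omega
    have h2 : (a - 1).toNat = 0 := by omega
    rw [h1, h2]
    simp only [sumTo, zero_add]
    have := h 1 (by push_cast; omega)
    omega
  · obtain ⟨n, rfl⟩ : ∃ n : ℕ, a = n + 1 := ⟨(a - 1).toNat, by omega⟩
    have h1 : ((n : ℤ) + 1).toNat = n + 1 := by omega
    have h2 : ((n : ℤ) + 1 - 1).toNat = n := by omega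
    rw [h1, h2, sumTo_succ']
    ring

def E0 (a b c : ℤ) : ℤ := if a = 0 ∧ b = 0 ∧ c = 0 then 1 else 0
def E1 (a b c : ℤ) : ℤ := if a = 0 ∧ b = 0 ∧ 0 ≤ c ∧ c % 2 = 0 then 1 else 0
def E2 (a b c : ℤ) : ℤ := if a = 0 ∧ 0 ≤ b ∧ b % 2 = 0 ∧ 0 ≤ c ∧ c % 2 = 0 then 1 else 0
def E3 (a b c : ℤ) : ℤ := sumTo (fun k => E2 a (b - k) (c - k)) (b.toNat + 1)
def E4 (a b c : ℤ) : ℤ := sumTo (fun k => E3 a (b - k) (c + k)) (b.toNat + 1)
def E5 (a b c : ℤ) : ℤ := if 0 ≤ a ∧ a % 2 = 0 then E4 0 b c else 0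
def E6 (a b c : ℤ) : ℤ := sumTo (fun k => E5 (a - k) b (c - k)) (a.toNat + 1)
def E7 (a b c : ℤ) : ℤ := sumTo (fun k => E6 (a - k) b (c + k)) (a.toNat + 1)
def E8 (a b c : ℤ) : ℤ := sumTo (fun k => E7 (a - k) (b - k) c) (a.toNat + 1)
def E9 (a b c : ℤ) : ℤ := sumTo (fun k => E8 (a - k) (b + k) c) (a.toNat + 1)

lemma sumTo_zero (u : ℕ → ℤ) (n : ℕ) (h : ∀ k, u k = 0) : sumTo u n = 0 := by
  induction n with
  | zero => rfl
  | succ n ih => rw [sumTo, ih, h]; rfl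

lemma sumTo_neg (u : ℕ → ℤ) (a : ℤ) (ha : a < 0) (h : u 0 = 0) : sumTo u (a.toNat + 1) = 0 := by
  have h1 : a.toNat = 0 := by omega
  rw [h1]; simp [sumTo, h]

lemma E1_diff (a b c : ℤ) : E1 a b c - E1 a b (c + -2) = E0 a b c := by
  unfold E1 E0; split_ifs <;> first | rfl | (exfalso; omega)

lemma E2_diff (a b c : ℤ) : E2 a b c - E2 a (b + -2) c = E1 a b c := by
  unfold E2 E1; split_ifs <;> first | rfl | (exfalso; omega)

lemma E2_b (a b c : ℤ) (hb : b < 0) : E2 a b c = 0 := by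
  unfold E2; rw [if_neg (by omega)]

lemma E2_a (a b c : ℤ) (ha : a ≠ 0) : E2 a b c = 0 := by
  unfold E2; rw [if_neg (by omega)]

lemma E3_b (a b c : ℤ) (hb : b < 0) : E3 a b c = 0 := by
  unfold E3; exact sumTo_neg _ _ hb (E2_b _ _ _ (by push_cast; omega))

lemma E3_a (a b c : ℤ) (ha : a ≠ 0) : E3 a b c = 0 := by
  unfold E3; exact sumTo_zero _ _ fun k => E2_a _ _ _ ha

lemma E4_a (a b c : ℤ) (ha : a ≠ 0) : E4 a b c = 0 := by
  unfold E4; exact sumTo_zero _ _ fun k => E3_a _ _ _ ha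

lemma E5_a (a b c : ℤ) (ha : a < 0) : E5 a b c = 0 := by
  unfold E5; rw [if_neg (by omega)]

lemma E6_a (a b c : ℤ) (ha : a < 0) : E6 a b c = 0 := by
  unfold E6; exact sumTo_neg _ _ ha (E5_a _ _ _ (by push_cast; omega))

lemma E7_a (a b c : ℤ) (ha : a < 0) : E7 a b c = 0 := by
  unfold E7; exact sumTo_neg _ _ ha (E6_a _ _ _ (by push_cast; omega))

lemma E8_a (a b c : ℤ) (ha : a < 0) : E8 a b c = 0 := by
  unfold E8; exact sumTo_neg _ _ ha (E7_a _ _ _ (by push_cast; omega))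

lemma E3_diff (a b c : ℤ) : E3 a b c - E3 a (b + -1) (c + -1) = E2 a b c := by
  have h := tele (fun k => E2 a (b - k) (c - k)) b (fun k hk => E2_b _ _ _ (by omega))
  simp only [Nat.cast_zero, sub_zero] at h
  rw [← h]
  unfold E3
  congr 2
  funext k
  congr 1 <;> (push_cast; ring)

lemma E4_diff (a b c : ℤ) : E4 a b c - E4 a (b + -1) (c + 1) = E3 a b c := by
  have h := tele (fun k => E3 a (b - k) (c + k)) b (fun k hk => E3_b _ _ _ (by omega))
  simp only [Nat.cast_zero, sub_zero, add_zero] at h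
  rw [← h]
  unfold E4
  congr 2
  funext k
  congr 1 <;> (push_cast; ring)

lemma E5_diff (a b c : ℤ) : E5 a b c - E5 (a + -2) b c = E4 a b c := by
  unfold E5
  by_cases ha : a = 0
  · subst ha
    rw [if_pos (by omega), if_neg (by omega)]; ring
  · rw [E4_a a b c ha]
    split_ifs <;> first | (exfalso; omega) | ring

lemma E6_diff (a b c : ℤ) : E6 a b c - E6 (a + -1) b (c + -1) = E5 a b c := by
  have h := tele (fun k => E5 (a - k) b (c - k)) a (fun k hk => E5_a _ _ _ (by omega))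
  simp only [Nat.cast_zero, sub_zero, add_zero] at h
  rw [← h]
  unfold E6
  congr 2
  funext k
  congr 1 <;> (push_cast; ring)

lemma E7_diff (a b c : ℤ) : E7 a b c - E7 (a + -1) b (c + 1) = E6 a b c := by
  have h := tele (fun k => E6 (a - k) b (c + k)) a (fun k hk => E6_a _ _ _ (by omega))
  simp only [Nat.cast_zero, sub_zero, add_zero] at h
  rw [← h]
  unfold E7
  congr 2
  funext k
  congr 1 <;> (push_cast; ring)

lemma E8_diff (a b c : ℤ) : E8 a b c - E8 (a + -1) (b + -1) c = E7 a b c := by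
  have h := tele (fun k => E7 (a - k) (b - k) c) a (fun k hk => E7_a _ _ _ (by omega))
  simp only [Nat.cast_zero, sub_zero, add_zero] at h
  rw [← h]
  unfold E8
  congr 2
  funext k
  congr 1 <;> (push_cast; ring)

lemma E9_diff (a b c : ℤ) : E9 a b c - E9 (a + -1) (b + 1) c = E8 a b c := by
  have h := tele (fun k => E8 (a - k) (b + k) c) a (fun k hk => E8_a _ _ _ (by omega))
  simp only [Nat.cast_zero, sub_zero, add_zero] at h
  rw [← h]
  unfold E9
  congr 2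
  funext k
  congr 1 <;> (push_cast; ring)

/-! ### The pairing -/

/-- pairing of a Laurent polynomial with a function on the lattice -/
noncomputable def pair (g : ℤ → ℤ → ℤ → ℤ) (f : CharRing 3) : ℤ :=
  f.coeff.sum fun x a => a * g (x 0) (x 1) (x 2)

lemma pair_add (g : ℤ → ℤ → ℤ → ℤ) (f f' : CharRing 3) :
    pair g (f + f') = pair g f + pair g f' := by
  unfold pair
  rw [AddMonoidAlgebra.coeff_add, Finsupp.sum_add_index']
  · intro x; simp
  · intro x a b; ring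

lemma pair_single (g : ℤ → ℤ → ℤ → ℤ) (x : Fin 3 → ℤ) (a : ℤ) :
    pair g (AddMonoidAlgebra.single x a) = a * g (x 0) (x 1) (x 2) := by
  unfold pair
  rw [AddMonoidAlgebra.coeff_single, Finsupp.sum_single_index]
  simp

lemma pair_zero (g : ℤ → ℤ → ℤ → ℤ) : pair g 0 = 0 := by
  unfold pair; simp

lemma pair_neg (g : ℤ → ℤ → ℤ → ℤ) (f : CharRing 3) : pair g (-f) = - pair g f := by
  have h := pair_add g f (-f)
  rw [add_neg_cancel, pair_zero] at h
  linarith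

lemma pair_sub (g : ℤ → ℤ → ℤ → ℤ) (f f' : CharRing 3) :
    pair g (f - f') = pair g f - pair g f' := by
  rw [sub_eq_add_neg, pair_add, pair_neg]; ring

lemma pair_fun_sub (g g' : ℤ → ℤ → ℤ → ℤ) (f : CharRing 3) :
    pair (fun a b c => g a b c - g' a b c) f = pair g f - pair g' f := by
  unfold pair
  rw [← Finsupp.sum_sub]
  congr 1
  funext x a
  ring

lemma pair_fun_add (g g' : ℤ → ℤ → ℤ → ℤ) (f : CharRing 3) :
    pair (fun a b c => g a b c + g' a b c) f = pair g f + pair g' f := by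
  unfold pair
  rw [← Finsupp.sum_add]
  congr 1
  funext x a
  ring

lemma pair_xp (g : ℤ → ℤ → ℤ → ℤ) (i : Fin 3) (k : ℤ) (f : CharRing 3) :
    pair g (xp i k * f) = pair (fun a b c => g (a + if i = 0 then k else 0)
      (b + if i = 1 then k else 0) (c + if i = 2 then k else 0)) f := by
  induction f using AddMonoidAlgebra.induction_linear with
  | zero => simp [pair_zero]
  | add f f' h h' => rw [mul_add, pair_add, pair_add, h, h']
  | single x a =>
    unfold xp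
    rw [AddMonoidAlgebra.single_mul_single, pair_single, pair_single, one_mul]
    congr 2 <;> fin_cases i <;> simp [add_comm]

lemma pair_xp0 (g : ℤ → ℤ → ℤ → ℤ) (k : ℤ) (f : CharRing 3) :
    pair g (xp 0 k * f) = pair (fun a b c => g (a + k) b c) f := by
  rw [pair_xp]; simp

lemma pair_xp1 (g : ℤ → ℤ → ℤ → ℤ) (k : ℤ) (f : CharRing 3) :
    pair g (xp 1 k * f) = pair (fun a b c => g a (b + k) c) f := by
  rw [pair_xp]; simp

lemma pair_xp2 (g : ℤ → ℤ → ℤ → ℤ) (k : ℤ) (f : CharRing 3) :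
    pair g (xp 2 k * f) = pair (fun a b c => g a b (c + k)) f := by
  rw [pair_xp]; simp

lemma pair_E0 (f : CharRing 3) : pair E0 f = f.coeff 0 := by
  induction f using AddMonoidAlgebra.induction_linear with
  | zero => simp [pair_zero]
  | add f f' h h' => rw [pair_add, h, h']; simp
  | single x a =>
    classical
    rw [pair_single, AddMonoidAlgebra.coeff_single, Finsupp.single_apply]
    unfold E0
    by_cases hx : x = 0
    · subst hx; simp
    · rw [if_neg hx, if_neg]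
      · simp
      · rintro ⟨h0, h1, h2⟩
        apply hx
        ext i
        fin_cases i <;> assumption

/-- Weyl denominator, product form -/
lemma alt_rho' : alt (rho 3) = (1 - xp 0 (-1) * xp 1 1) * ((1 - xp 0 (-1) * xp 1 (-1)) *
    ((1 - xp 0 (-1) * xp 2 1) * ((1 - xp 0 (-1) * xp 2 (-1)) * ((1 - xp 0 (-2)) *
    ((1 - xp 1 (-1) * xp 2 1) * ((1 - xp 1 (-1) * xp 2 (-1)) * ((1 - xp 1 (-2)) *
    ((1 - xp 2 (-2)) * (xp 0 3 * (xp 1 2 * xp 2 1)))))))))) := by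
  have e : ∀ i : Fin 3, xp i (-2) = xp i (-1) * xp i (-1) := by
    intro i; rw [← xp_add]; norm_num
  have e2 : ∀ i : Fin 3, xp i 2 = xp i 1 * xp i 1 := by
    intro i; rw [← xp_add]; norm_num
  have e3 : ∀ i : Fin 3, xp i 3 = xp i 1 * xp i 1 * xp i 1 := by
    intro i; rw [← xp_add, ← xp_add]; norm_num
  rw [alt_rho, e, e, e, e2, e3]
  have h0 := xp_mul_neg (0 : Fin 3) 1
  have h1 := xp_mul_neg (1 : Fin 3) 1
  have h2 := xp_mul_neg (2 : Fin 3) 1
  have f0 : ∀ i : Fin 3, xp i 1 - xp i (-1) = xp i 1 * (1 - xp i (-1) * xp i (-1)) := by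
    intro i
    linear_combination xp i (-1) * xp_mul_neg i 1
  have f1 : ∀ i j : Fin 3, (xp i 1 + xp i (-1)) - (xp j 1 + xp j (-1)) =
      xp i 1 * ((1 - xp i (-1) * xp j 1) * (1 - xp i (-1) * xp j (-1))) := by
    intro i j
    linear_combination (-xp i (-1) * (xp j 1 * xp j (-1)) + xp j 1 + xp j (-1)) * xp_mul_neg i 1 -
      xp i (-1) * xp_mul_neg j 1
  rw [f0, f0, f0, f1, f1, f1]
  ring

lemma p9 (f : CharRing 3) : pair E9 ((1 - xp 0 (-1) * xp 1 1) * f) = pair E8 f := by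
  rw [sub_mul, one_mul, pair_sub, mul_assoc, pair_xp0, pair_xp1, ← pair_fun_sub]
  congr 1; funext a b c; exact E9_diff a b c

lemma p8 (f : CharRing 3) : pair E8 ((1 - xp 0 (-1) * xp 1 (-1)) * f) = pair E7 f := by
  rw [sub_mul, one_mul, pair_sub, mul_assoc, pair_xp0, pair_xp1, ← pair_fun_sub]
  congr 1; funext a b c; exact E8_diff a b c

lemma p7 (f : CharRing 3) : pair E7 ((1 - xp 0 (-1) * xp 2 1) * f) = pair E6 f := by
  rw [sub_mul, one_mul, pair_sub, mul_assoc, pair_xp0, pair_xp2, ← pair_fun_sub]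
  congr 1; funext a b c; exact E7_diff a b c

lemma p6 (f : CharRing 3) : pair E6 ((1 - xp 0 (-1) * xp 2 (-1)) * f) = pair E5 f := by
  rw [sub_mul, one_mul, pair_sub, mul_assoc, pair_xp0, pair_xp2, ← pair_fun_sub]
  congr 1; funext a b c; exact E6_diff a b c

lemma p5 (f : CharRing 3) : pair E5 ((1 - xp 0 (-2)) * f) = pair E4 f := by
  rw [sub_mul, one_mul, pair_sub, pair_xp0, ← pair_fun_sub]
  congr 1; funext a b c; exact E5_diff a b c

lemma p4 (f : CharRing 3) : pair E4 ((1 - xp 1 (-1) * xp 2 1) * f) = pair E3 f := by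
  rw [sub_mul, one_mul, pair_sub, mul_assoc, pair_xp1, pair_xp2, ← pair_fun_sub]
  congr 1; funext a b c; exact E4_diff a b c

lemma p3 (f : CharRing 3) : pair E3 ((1 - xp 1 (-1) * xp 2 (-1)) * f) = pair E2 f := by
  rw [sub_mul, one_mul, pair_sub, mul_assoc, pair_xp1, pair_xp2, ← pair_fun_sub]
  congr 1; funext a b c; exact E3_diff a b c

lemma p2 (f : CharRing 3) : pair E2 ((1 - xp 1 (-2)) * f) = pair E1 f := by
  rw [sub_mul, one_mul, pair_sub, pair_xp1, ← pair_fun_sub]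
  congr 1; funext a b c; exact E2_diff a b c

lemma p1 (f : CharRing 3) : pair E1 ((1 - xp 2 (-2)) * f) = pair E0 f := by
  rw [sub_mul, one_mul, pair_sub, pair_xp2, ← pair_fun_sub]
  congr 1; funext a b c; exact E1_diff a b c

lemma pair_E9 (f : CharRing 3) :
    pair E9 (alt (rho 3) * f) = f.coeff ![-3, -2, -1] := by
  rw [alt_rho']
  simp only [mul_assoc]
  rw [p9, p8, p7, p6, p5, p4, p3, p2, p1, pair_E0]
  unfold xp
  rw [AddMonoidAlgebra.coeff_single_mul_apply, AddMonoidAlgebra.coeff_single_mul_apply,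
    AddMonoidAlgebra.coeff_single_mul_apply, one_mul, one_mul, one_mul]
  congr 1
  ext i
  fin_cases i <;> simp

/-! ### The alternant acting on functions -/

def D0 (k : ℤ) (g : ℤ → ℤ → ℤ → ℤ) (a b c : ℤ) : ℤ := g (a + k) b c - g (a - k) b c
def D1 (k : ℤ) (g : ℤ → ℤ → ℤ → ℤ) (a b c : ℤ) : ℤ := g a (b + k) c - g a (b - k) c
def D2 (k : ℤ) (g : ℤ → ℤ → ℤ → ℤ) (a b c : ℤ) : ℤ := g a b (c + k) - g a b (c - k)

def A (m0 m1 m2 : ℤ) (g : ℤ → ℤ → ℤ → ℤ) (a b c : ℤ) : ℤ :=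
  D0 m0 (D1 m1 (D2 m2 g)) a b c - D0 m0 (D1 m2 (D2 m1 g)) a b c
  - D0 m1 (D1 m0 (D2 m2 g)) a b c + D0 m2 (D1 m0 (D2 m1 g)) a b c
  + D0 m1 (D1 m2 (D2 m0 g)) a b c - D0 m2 (D1 m1 (D2 m0 g)) a b c

lemma pair_D0 (g : ℤ → ℤ → ℤ → ℤ) (k : ℤ) (f : CharRing 3) :
    pair g ((xp 0 k - xp 0 (-k)) * f) = pair (D0 k g) f := by
  rw [sub_mul, pair_sub, pair_xp0, pair_xp0, ← pair_fun_sub]
  rfl

lemma pair_D1 (g : ℤ → ℤ → ℤ → ℤ) (k : ℤ) (f : CharRing 3) :
    pair g ((xp 1 k - xp 1 (-k)) * f) = pair (D1 k g) f := by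
  rw [sub_mul, pair_sub, pair_xp1, pair_xp1, ← pair_fun_sub]
  rfl

lemma pair_D2 (g : ℤ → ℤ → ℤ → ℤ) (k : ℤ) (f : CharRing 3) :
    pair g ((xp 2 k - xp 2 (-k)) * f) = pair (D2 k g) f := by
  rw [sub_mul, pair_sub, pair_xp2, pair_xp2, ← pair_fun_sub]
  rfl

lemma alt_expand (m : Fin 3 → ℤ) (f : CharRing 3) : alt m * f =
    (xp 2 (m 2) - xp 2 (-m 2)) * ((xp 1 (m 1) - xp 1 (-m 1)) * ((xp 0 (m 0) - xp 0 (-m 0)) * f))
    - (xp 2 (m 1) - xp 2 (-m 1)) * ((xp 1 (m 2) - xp 1 (-m 2)) * ((xp 0 (m 0) - xp 0 (-m 0)) * f))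
    - (xp 2 (m 2) - xp 2 (-m 2)) * ((xp 1 (m 0) - xp 1 (-m 0)) * ((xp 0 (m 1) - xp 0 (-m 1)) * f))
    + (xp 2 (m 1) - xp 2 (-m 1)) * ((xp 1 (m 0) - xp 1 (-m 0)) * ((xp 0 (m 2) - xp 0 (-m 2)) * f))
    + (xp 2 (m 0) - xp 2 (-m 0)) * ((xp 1 (m 2) - xp 1 (-m 2)) * ((xp 0 (m 1) - xp 0 (-m 1)) * f))
    - (xp 2 (m 0) - xp 2 (-m 0)) * ((xp 1 (m 1) - xp 1 (-m 1)) * ((xp 0 (m 2) - xp 0 (-m 2)) * f))
    := by
  unfold alt
  rw [Matrix.det_fin_three]
  simp only [Matrix.of_apply]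
  ring

lemma pair_alt (g : ℤ → ℤ → ℤ → ℤ) (m : Fin 3 → ℤ) (f : CharRing 3) :
    pair g (alt m * f) = pair (A (m 0) (m 1) (m 2) g) f := by
  rw [alt_expand]
  simp only [pair_sub, pair_add, pair_D2, pair_D1, pair_D0]
  unfold A
  rw [pair_fun_sub, pair_fun_add, pair_fun_add, pair_fun_sub, pair_fun_sub]

/-- Steinberg number -/
def St (l0 l1 l2 m0 m1 m2 n0 n1 n2 : ℤ) : ℤ :=
  A (m0 + 3) (m1 + 2) (m2 + 1) (A (l0 + 3) (l1 + 2) (l2 + 1) E9) (-n0 - 6) (-n1 - 4) (-n2 - 2)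

end Pool.Agent.H471.CG
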