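import Mathlib
import Pool.Agent.H471.CGB

set_option autoImplicit false

open Polynomial

namespace Pool.Agent.H471.CG

/-- strictly dominant -/
def SD (a : Fin 3 → ℤ) : Prop := a 1 < a 0 ∧ a 2 < a 1 ∧ 0 < a 2

lemma sd_add_rho (κ : Fin 3 → ℤ) (h : Dominant κ) : SD (κ + rho 3) := by
  rw [rho3]
  have h1 := h.1 0 1 (by decide)
  have h2 := h.1 1 2 (by decide)
  have h3 := h.2 2
  refine ⟨?_, ?_, ?_⟩ <;> simp <;> omega

lemma dominant_of_sd (a : Fin 3 → ℤ) (h : SD a) : Dominant (a - rho 3) := by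
  obtain ⟨h1, h2, h3⟩ := h
  rw [rho3]
  constructor
  · intro i j hij
    fin_cases i <;> fin_cases j <;> first | (exfalso; revert hij; decide) | (simp; try omega)
  · intro i
    fin_cases i <;> simp <;> omega

lemma xp_prod (s q p : ℤ) : (xp 2 p * (xp 1 q * xp 0 s) : CharRing 3) =
    AddMonoidAlgebra.single ![s, q, p] 1 := by
  unfold xp
  rw [AddMonoidAlgebra.single_mul_single, AddMonoidAlgebra.single_mul_single]
  congr 1
  ext i
  fin_cases i <;> simp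

lemma coeff_xp_prod (s q p : ℤ) (b : Fin 3 → ℤ) :
    (xp 2 p * (xp 1 q * xp 0 s) : CharRing 3).coeff b =
      if s = b 0 ∧ q = b 1 ∧ p = b 2 then 1 else 0 := by
  rw [xp_prod, AddMonoidAlgebra.coeff_single, Finsupp.single_apply]
  congr 1
  apply propext
  constructor
  · intro h
    subst h
    simp
  · rintro ⟨h0, h1, h2⟩
    ext i
    fin_cases i <;> simpa

lemma coeff_F (s q p : ℤ) (b : Fin 3 → ℤ) (hs : 0 < s) (hq : 0 < q) (hp : 0 < p)
    (h0 : 0 < b 0) (h1 : 0 < b 1) (h2 : 0 < b 2) :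
    (((xp 2 p - xp 2 (-p)) * ((xp 1 q - xp 1 (-q)) * (xp 0 s - xp 0 (-s)))) : CharRing 3).coeff b =
      if s = b 0 ∧ q = b 1 ∧ p = b 2 then 1 else 0 := by
  have e : (((xp 2 p - xp 2 (-p)) * ((xp 1 q - xp 1 (-q)) * (xp 0 s - xp 0 (-s)))) : CharRing 3) =
      xp 2 p * (xp 1 q * xp 0 s) - xp 2 p * (xp 1 q * xp 0 (-s)) - xp 2 p * (xp 1 (-q) * xp 0 s)
      + xp 2 p * (xp 1 (-q) * xp 0 (-s)) - xp 2 (-p) * (xp 1 q * xp 0 s)
      + xp 2 (-p) * (xp 1 q * xp 0 (-s)) + xp 2 (-p) * (xp 1 (-q) * xp 0 s)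
      - xp 2 (-p) * (xp 1 (-q) * xp 0 (-s)) := by ring
  rw [e]
  simp only [AddMonoidAlgebra.coeff_sub, AddMonoidAlgebra.coeff_add, Finsupp.sub_apply,
    Finsupp.add_apply, coeff_xp_prod]
  rw [if_neg (c := -s = b 0 ∧ q = b 1 ∧ p = b 2) (by omega),
    if_neg (c := s = b 0 ∧ -q = b 1 ∧ p = b 2) (by omega),
    if_neg (c := -s = b 0 ∧ -q = b 1 ∧ p = b 2) (by omega),
    if_neg (c := s = b 0 ∧ q = b 1 ∧ -p = b 2) (by omega),
    if_neg (c := -s = b 0 ∧ q = b 1 ∧ -p = b 2) (by omega),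
    if_neg (c := s = b 0 ∧ -q = b 1 ∧ -p = b 2) (by omega),
    if_neg (c := -s = b 0 ∧ -q = b 1 ∧ -p = b 2) (by omega)]
  ring

lemma coeff_alt (a b : Fin 3 → ℤ) (ha : SD a) (hb : SD b) :
    (alt a).coeff b = if a = b then 1 else 0 := by
  obtain ⟨a1, a2, a3⟩ := ha
  obtain ⟨b1, b2, b3⟩ := hb
  have e := alt_expand a 1
  rw [mul_one] at e
  rw [e]
  simp only [mul_one]
  simp only [AddMonoidAlgebra.coeff_sub, AddMonoidAlgebra.coeff_add, Finsupp.sub_apply,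
    Finsupp.add_apply]
  rw [coeff_F, coeff_F, coeff_F, coeff_F, coeff_F, coeff_F] <;> try omega
  rw [if_neg (c := a 0 = b 0 ∧ a 2 = b 1 ∧ a 1 = b 2) (by omega),
    if_neg (c := a 1 = b 0 ∧ a 0 = b 1 ∧ a 2 = b 2) (by omega),
    if_neg (c := a 2 = b 0 ∧ a 0 = b 1 ∧ a 1 = b 2) (by omega),
    if_neg (c := a 1 = b 0 ∧ a 2 = b 1 ∧ a 0 = b 2) (by omega),
    if_neg (c := a 2 = b 0 ∧ a 1 = b 1 ∧ a 0 = b 2) (by omega)]
  by_cases hab : a = b
  · subst hab; simp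
  · rw [if_neg hab, if_neg]
    · ring
    · rintro ⟨h0, h1, h2⟩
      apply hab
      ext i
      fin_cases i <;> simpa

lemma steinberg (lam mu : Fin 3 → ℤ) (χl χm : CharRing 3) (χ : (Fin 3 → ℤ) → CharRing 3)
    (m : (Fin 3 → ℤ) →₀ ℤ) (hl : IsIrrChar lam χl) (hm : IsIrrChar mu χm)
    (hχ : ∀ κ ∈ m.support, IsIrrChar κ (χ κ)) (hd : ∀ κ ∈ m.support, Dominant κ)
    (h : χl * χm = m.sum (fun κ n => n • χ κ)) (nu : Fin 3 → ℤ) (hnu : Dominant nu) :
    m nu = St (lam 0) (lam 1) (lam 2) (mu 0) (mu 1) (mu 2) (nu 0) (nu 1) (nu 2) := by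
  unfold IsIrrChar at hl hm hχ
  have e1 : alt (lam + rho 3) * alt (mu + rho 3) =
      alt (rho 3) * (m.sum fun κ n => n • alt (κ + rho 3)) := by
    rw [← hl, ← hm]
    have e2 : (m.sum fun κ n => n • alt (κ + rho 3)) =
        (m.sum (fun κ n => n • χ κ)) * alt (rho 3) := by
      unfold Finsupp.sum
      rw [Finset.sum_mul]
      apply Finset.sum_congr rfl
      intro κ hκ
      rw [smul_mul_assoc, hχ κ hκ]
    rw [e2, ← h]
    ring
  set z : Fin 3 → ℤ := ![-nu 0 - 6, -nu 1 - 4, -nu 2 - 2] with hz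
  have e3 : pair E9 (alt (lam + rho 3) * (alt (mu + rho 3) * AddMonoidAlgebra.single z 1)) =
      St (lam 0) (lam 1) (lam 2) (mu 0) (mu 1) (mu 2) (nu 0) (nu 1) (nu 2) := by
    rw [pair_alt, pair_alt, pair_single]
    simp [St, hz, rho3]
  have e4 : pair E9 (alt (lam + rho 3) * (alt (mu + rho 3) * AddMonoidAlgebra.single z 1)) =
      m nu := by
    rw [← mul_assoc, e1, mul_assoc, pair_E9, AddMonoidAlgebra.coeff_mul_single_apply, mul_one]
    have e5 : (![-3, -2, -1] : Fin 3 → ℤ) + -z = nu + rho 3 := by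
      rw [hz, rho3]
      ext i
      fin_cases i <;> simp <;> ring
    rw [e5]
    unfold Finsupp.sum
    rw [AddMonoidAlgebra.coeff_sum, Finsupp.finsetSum_apply]
    have e6 : ∀ κ ∈ m.support, (m κ • alt (κ + rho 3)).coeff (nu + rho 3) =
        if κ = nu then m κ else 0 := by
      intro κ hκ
      rw [AddMonoidAlgebra.coeff_smul_apply, coeff_alt _ _ (sd_add_rho κ (hd κ hκ))
        (sd_add_rho nu hnu)]
      by_cases hκν : κ = nu
      · rw [if_pos hκν, if_pos (by rw [hκν])]; simp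
      · rw [if_neg hκν, if_neg (fun h => hκν (add_right_cancel h))]; simp
    rw [Finset.sum_congr rfl e6, Finset.sum_ite_eq']
    split_ifs with hs
    · rfl
    · exact (Finsupp.notMem_support_iff.mp hs).symm
  rw [← e3, e4]

lemma isCG_unique (lam mu nu : Fin 3 → ℤ) (hl : Dominant lam) (hm : Dominant mu)
    (hn : Dominant nu) (x : ℤ) (h : IsCG lam mu nu x) :
    x = St (lam 0) (lam 1) (lam 2) (mu 0) (mu 1) (mu 2) (nu 0) (nu 1) (nu 2) := by
  obtain ⟨χ, m, h1, h2, h3, rfl⟩ := h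
  exact steinberg lam mu (χ lam) (χ mu) χ m (h1 _ hl) (h1 _ hm) (fun κ hκ => h1 κ (h2 κ hκ)) h2 h3
    nu hn

end Pool.Agent.H471.CG
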