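import Mathlib
import Pool.Agent.H471.CGC

set_option autoImplicit false

open Polynomial

namespace Pool.Agent.H471.CG

lemma exists_irr (κ : Fin 3 → ℤ) (h : Dominant κ) : ∃ χ, IsIrrChar κ χ := by
  have h1 := sd_add_rho κ h
  obtain ⟨c, hc⟩ := alt_rho_dvd (fun i => ((κ + rho 3) i).toNat)
  have e : (fun i => (((κ + rho 3) i).toNat : ℤ)) = κ + rho 3 := by
    obtain ⟨h1, h2, h3⟩ := h1
    funext i
    apply Int.toNat_of_nonneg
    fin_cases i <;> simp at * <;> omega
  rw [e] at hc
  exact ⟨c, by unfold IsIrrChar; rw [hc]; ring⟩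

lemma alt_rho_ne : alt (rho 3) ≠ 0 := by
  intro h
  have h1 : SD (rho 3) := by rw [rho3]; refine ⟨?_, ?_, ?_⟩ <;> simp
  have h2 := coeff_alt _ _ h1 h1
  rw [h] at h2
  simp at h2

lemma antisym (w : (Fin 3 → ℤ) →+ (Fin 3 → ℤ)) (hw : ∀ x, w (w x) = x)
    (halt : ∀ m : Fin 3 → ℤ, AddMonoidAlgebra.mapDomainRingHom ℤ w (alt m) = - alt m)
    (f : CharRing 3) (a b : Fin 3 → ℤ) (hf : f * alt (rho 3) = alt a * alt b) (x : Fin 3 → ℤ) :
    f.coeff (w x) = - f.coeff x := by
  have h1 : AddMonoidAlgebra.mapDomainRingHom ℤ w f = - f := by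
    have h2 := congrArg (AddMonoidAlgebra.mapDomainRingHom ℤ w) hf
    rw [map_mul, map_mul, halt, halt, halt] at h2
    apply mul_right_cancel₀ alt_rho_ne
    rw [neg_mul, hf]
    linear_combination -h2
  have hinj : Function.Injective w := fun x y hxy => by rw [← hw x, hxy, hw]
  have h3 : (AddMonoidAlgebra.mapDomainRingHom ℤ w f).coeff (w x) = f.coeff x := by
    change (AddMonoidAlgebra.mapDomain w f).coeff (w x) = f.coeff x
    exact Finsupp.mapDomain_apply hinj _ _
  rw [h1, AddMonoidAlgebra.coeff_neg, Finsupp.neg_apply] at h3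
  linarith

def permHom (σ : Equiv.Perm (Fin 3)) : (Fin 3 → ℤ) →+ (Fin 3 → ℤ) where
  toFun x i := x (σ i)
  map_zero' := rfl
  map_add' _ _ := rfl

def negHom : (Fin 3 → ℤ) →+ (Fin 3 → ℤ) where
  toFun x := ![x 0, x 1, -x 2]
  map_zero' := by ext i; fin_cases i <;> simp
  map_add' x y := by ext i; fin_cases i <;> simp; ring

lemma map_xp_perm (σ : Equiv.Perm (Fin 3)) (i : Fin 3) (k : ℤ) :
    AddMonoidAlgebra.mapDomainRingHom ℤ (permHom σ) (xp i k) = xp (σ.symm i) k := by
  unfold xp
  change AddMonoidAlgebra.mapDomain _ _ = _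
  rw [AddMonoidAlgebra.mapDomain_single]
  congr 1
  ext j
  change Pi.single (M := fun _ => ℤ) i k (σ j) = Pi.single (M := fun _ => ℤ) (σ.symm i) k j
  by_cases h : σ j = i
  · subst h; simp
  · rw [Pi.single_eq_of_ne h, Pi.single_eq_of_ne]
    rintro rfl; simp at h

lemma map_xp_neg (i : Fin 3) (k : ℤ) :
    AddMonoidAlgebra.mapDomainRingHom ℤ negHom (xp i k) = xp i (if i = 2 then -k else k) := by
  unfold xp
  change AddMonoidAlgebra.mapDomain _ _ = _
  rw [AddMonoidAlgebra.mapDomain_single]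
  congr 1
  ext j
  fin_cases i <;> fin_cases j <;> simp [negHom]

lemma halt_swap01 (m : Fin 3 → ℤ) :
    AddMonoidAlgebra.mapDomainRingHom ℤ (permHom (Equiv.swap 0 1)) (alt m) = - alt m := by
  have e0 : (Equiv.swap (0 : Fin 3) 1).symm 0 = 1 := by decide
  have e1 : (Equiv.swap (0 : Fin 3) 1).symm 1 = 0 := by decide
  have e2 : (Equiv.swap (0 : Fin 3) 1).symm 2 = 2 := by decide
  unfold alt
  rw [Matrix.det_fin_three]
  simp only [Matrix.of_apply, map_add, map_sub, map_mul, map_xp_perm, e0, e1, e2]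
  ring

lemma halt_swap12 (m : Fin 3 → ℤ) :
    AddMonoidAlgebra.mapDomainRingHom ℤ (permHom (Equiv.swap 1 2)) (alt m) = - alt m := by
  have e0 : (Equiv.swap (1 : Fin 3) 2).symm 0 = 0 := by decide
  have e1 : (Equiv.swap (1 : Fin 3) 2).symm 1 = 2 := by decide
  have e2 : (Equiv.swap (1 : Fin 3) 2).symm 2 = 1 := by decide
  unfold alt
  rw [Matrix.det_fin_three]
  simp only [Matrix.of_apply, map_add, map_sub, map_mul, map_xp_perm, e0, e1, e2]
  ring

lemma halt_neg (m : Fin 3 → ℤ) :
    AddMonoidAlgebra.mapDomainRingHom ℤ negHom (alt m) = - alt m := by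
  unfold alt
  rw [Matrix.det_fin_three]
  simp only [Matrix.of_apply, map_add, map_sub, map_mul, map_xp_neg]
  simp only [Fin.isValue, Fin.reduceEq, ↓reduceIte, neg_neg]
  ring

/-- an antisymmetric function vanishing at strictly dominant points vanishes -/
lemma zero_of_antisym (H : ℤ → ℤ → ℤ → ℤ) (h01 : ∀ a b c, H b a c = -H a b c)
    (h12 : ∀ a b c, H a c b = -H a b c) (hn : ∀ a b c, H a b (-c) = -H a b c)
    (h0 : ∀ a b c, b < a → c < b → 0 < c → H a b c = 0) (a b c : ℤ) : H a b c = 0 := by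
  -- nonneg weakly decreasing
  have s1 : ∀ a b c, b ≤ a → c ≤ b → 0 ≤ c → H a b c = 0 := by
    intro a b c h1 h2 h3
    rcases h1.eq_or_lt with h1 | h1
    · subst h1; have := h01 b b c; omega
    rcases h2.eq_or_lt with h2 | h2
    · subst h2; have := h12 a c c; omega
    rcases h3.eq_or_lt with h3 | h3
    · subst h3; have := hn a b 0; simp at this; omega
    exact h0 a b c h1 h2 h3
  -- nonneg
  have s2 : ∀ a b c, 0 ≤ a → 0 ≤ b → 0 ≤ c → H a b c = 0 := by
    intro a b c ha hb hc
    have q1 := h01 a b c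
    have q2 := h12 a b c
    have q3 := h01 a c b
    have q4 := h12 b a c
    have q5 := h01 b c a
    rcases le_total a b with h1 | h1 <;> rcases le_total b c with h2 | h2 <;>
      rcases le_total a c with h3 | h3
    · have := s1 c b a h2 h1 ha; omega
    · have := s1 c b a h2 h1 ha; omega
    · have := s1 b c a h2 h3 ha; omega
    · have := s1 b a c h1 h3 hc; omega
    · have := s1 c a b h3 h1 hb; omega
    · have := s1 a c b h3 h2 hb; omega
    · have := s1 a b c h1 h2 hc; omega
    · have := s1 a b c h1 h2 hc; omega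
  have hn1 : ∀ a b c, H a (-b) c = -H a b c := by
    intro a b c
    have q1 := h12 a (-b) c
    have q2 := hn a c b
    have q3 := h12 a b c
    omega
  have hn0 : ∀ a b c, H (-a) b c = -H a b c := by
    intro a b c
    have q1 := h01 (-a) b c
    have q2 := hn1 b a c
    have q3 := h01 a b c
    omega
  have s3 : ∀ a b c, 0 ≤ b → 0 ≤ c → H a b c = 0 := by
    intro a b c hb hc
    rcases le_total 0 a with h | h
    · exact s2 a b c h hb hc
    · have q1 := s2 (-a) b c (by omega) hb hc
      have q2 := hn0 a b c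
      omega
  have s4 : ∀ a b c, 0 ≤ c → H a b c = 0 := by
    intro a b c hc
    rcases le_total 0 b with h | h
    · exact s3 a b c h hc
    · have q1 := s3 a (-b) c (by omega) hc
      have q2 := hn1 a b c
      omega
  rcases le_total 0 c with h | h
  · exact s4 a b c h
  · have q1 := s4 a b (-c) (by omega)
    have q2 := hn a b c
    omega

lemma coeff_swap01 (f : CharRing 3) (a b : Fin 3 → ℤ) (hf : f * alt (rho 3) = alt a * alt b)
    (p q r : ℤ) : f.coeff ![q, p, r] = - f.coeff ![p, q, r] := by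
  have h := antisym (permHom (Equiv.swap 0 1)) (fun x => by ext i; simp [permHom]) halt_swap01
    f a b hf ![p, q, r]
  rw [← h]
  congr 1
  ext i
  fin_cases i <;> simp [permHom] <;> rfl

lemma coeff_swap12 (f : CharRing 3) (a b : Fin 3 → ℤ) (hf : f * alt (rho 3) = alt a * alt b)
    (p q r : ℤ) : f.coeff ![p, r, q] = - f.coeff ![p, q, r] := by
  have h := antisym (permHom (Equiv.swap 1 2)) (fun x => by ext i; simp [permHom]) halt_swap12
    f a b hf ![p, q, r]
  rw [← h]
  congr 1
  ext i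
  fin_cases i <;> simp [permHom] <;> rfl

lemma coeff_neg2 (f : CharRing 3) (a b : Fin 3 → ℤ) (hf : f * alt (rho 3) = alt a * alt b)
    (p q r : ℤ) : f.coeff ![p, q, -r] = - f.coeff ![p, q, r] := by
  have h := antisym negHom (fun x => by ext i; fin_cases i <;> simp [negHom]) halt_neg
    f a b hf ![p, q, r]
  rw [← h]
  congr 1

end Pool.Agent.H471.CG
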