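import Mathlib
import Pool.Agent.H471.CGD

set_option autoImplicit false

open Polynomial

namespace Pool.Agent.H471.CG

/-- pointwise antisymmetry -/
def AS (f : CharRing 3) : Prop :=
  (∀ p q r : ℤ, f.coeff ![q, p, r] = - f.coeff ![p, q, r]) ∧
  (∀ p q r : ℤ, f.coeff ![p, r, q] = - f.coeff ![p, q, r]) ∧
  (∀ p q r : ℤ, f.coeff ![p, q, -r] = - f.coeff ![p, q, r])

lemma AS_of (f : CharRing 3) (a b : Fin 3 → ℤ) (hf : f * alt (rho 3) = alt a * alt b) : AS f :=
  ⟨coeff_swap01 f a b hf, coeff_swap12 f a b hf, coeff_neg2 f a b hf⟩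

lemma AS_alt (a : Fin 3 → ℤ) : AS (alt a) := AS_of _ a (rho 3) rfl

lemma AS_sub (f g : CharRing 3) (hf : AS f) (hg : AS g) : AS (f - g) := by
  refine ⟨fun p q r => ?_, fun p q r => ?_, fun p q r => ?_⟩
  · simp only [AddMonoidAlgebra.coeff_sub, Finsupp.sub_apply, hf.1 p q r, hg.1 p q r]; ring
  · simp only [AddMonoidAlgebra.coeff_sub, Finsupp.sub_apply, hf.2.1 p q r, hg.2.1 p q r]; ring
  · simp only [AddMonoidAlgebra.coeff_sub, Finsupp.sub_apply, hf.2.2 p q r, hg.2.2 p q r]; ring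

lemma AS_sum {ι : Type*} (s : Finset ι) (f : ι → CharRing 3) (h : ∀ i ∈ s, AS (f i)) :
    AS (∑ i ∈ s, f i) := by
  refine ⟨fun p q r => ?_, fun p q r => ?_, fun p q r => ?_⟩
  · simp only [AddMonoidAlgebra.coeff_sum, Finsupp.finsetSum_apply]
    rw [← Finset.sum_neg_distrib]
    exact Finset.sum_congr rfl fun i hi => (h i hi).1 p q r
  · simp only [AddMonoidAlgebra.coeff_sum, Finsupp.finsetSum_apply]
    rw [← Finset.sum_neg_distrib]
    exact Finset.sum_congr rfl fun i hi => (h i hi).2.1 p q r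
  · simp only [AddMonoidAlgebra.coeff_sum, Finsupp.finsetSum_apply]
    rw [← Finset.sum_neg_distrib]
    exact Finset.sum_congr rfl fun i hi => (h i hi).2.2 p q r

lemma AS_smul (n : ℤ) (f : CharRing 3) (hf : AS f) : AS (n • f) := by
  refine ⟨fun p q r => ?_, fun p q r => ?_, fun p q r => ?_⟩
  · simp only [AddMonoidAlgebra.coeff_smul_apply, hf.1 p q r, smul_neg]
  · simp only [AddMonoidAlgebra.coeff_smul_apply, hf.2.1 p q r, smul_neg]
  · simp only [AddMonoidAlgebra.coeff_smul_apply, hf.2.2 p q r, smul_neg]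

lemma eq_zero_of_AS (f : CharRing 3) (hf : AS f) (h0 : ∀ x, SD x → f.coeff x = 0) : f = 0 := by
  have h := zero_of_antisym (fun a b c => f.coeff ![a, b, c]) (fun a b c => hf.1 a b c)
    (fun a b c => hf.2.1 a b c) (fun a b c => hf.2.2 a b c)
    (fun a b c h1 h2 h3 => h0 _ ⟨by simpa using h1, by simpa using h2, by simpa using h3⟩)
  apply AddMonoidAlgebra.coeff_injective
  ext x
  have hx : x = ![x 0, x 1, x 2] := by ext i; fin_cases i <;> rfl
  rw [hx]
  simpa using h (x 0) (x 1) (x 2)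

lemma sum_coeff (m : (Fin 3 → ℤ) →₀ ℤ) (hd : ∀ κ ∈ m.support, Dominant κ) (x : Fin 3 → ℤ)
    (hx : SD x) : (m.sum fun κ n => n • alt (κ + rho 3)).coeff x = m (x - rho 3) := by
  unfold Finsupp.sum
  rw [AddMonoidAlgebra.coeff_sum, Finsupp.finsetSum_apply]
  have e6 : ∀ κ ∈ m.support, (m κ • alt (κ + rho 3)).coeff x =
      if κ = x - rho 3 then m κ else 0 := by
    intro κ hκ
    rw [AddMonoidAlgebra.coeff_smul_apply, coeff_alt _ _ (sd_add_rho κ (hd κ hκ)) hx]
    by_cases hκν : κ = x - rho 3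
    · rw [if_pos hκν, if_pos (by rw [hκν]; simp)]; simp
    · rw [if_neg hκν, if_neg (fun h => hκν (eq_sub_of_add_eq h))]; simp
  rw [Finset.sum_congr rfl e6, Finset.sum_ite_eq']
  split_ifs with hs
  · rfl
  · exact (Finsupp.notMem_support_iff.mp hs).symm

lemma exists_decomp (f : CharRing 3) (hf : AS f) : ∃ m : (Fin 3 → ℤ) →₀ ℤ,
    (∀ κ ∈ m.support, Dominant κ) ∧ f = m.sum (fun κ n => n • alt (κ + rho 3)) := by
  classical
  let m : (Fin 3 → ℤ) →₀ ℤ :=
    (Finsupp.mapDomain (fun x => x - rho 3) f.coeff).filter Dominant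
  have hd : ∀ κ ∈ m.support, Dominant κ := by
    intro κ hκ
    rw [Finsupp.support_filter, Finset.mem_filter] at hκ
    exact hκ.2
  refine ⟨m, hd, ?_⟩
  have hAS : AS (f - m.sum (fun κ n => n • alt (κ + rho 3))) := by
    apply AS_sub _ _ hf
    unfold Finsupp.sum
    exact AS_sum _ _ fun κ _ => AS_smul _ _ (AS_alt _)
  have h0 := eq_zero_of_AS _ hAS (fun x hx => by
    rw [AddMonoidAlgebra.coeff_sub, Finsupp.sub_apply, sum_coeff m hd x hx]
    have h1 : m (x - rho 3) = f.coeff x := by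
      rw [Finsupp.filter_apply_pos _ _ (dominant_of_sd x hx)]
      exact Finsupp.mapDomain_apply (sub_left_injective (b := rho 3)) _ _
    rw [h1, sub_self])
  exact sub_eq_zero.mp h0

lemma isCG_exists (lam mu nu : Fin 3 → ℤ) (hl : Dominant lam) (hm : Dominant mu) :
    ∃ x, IsCG lam mu nu x := by
  classical
  have hex : ∀ κ : Fin 3 → ℤ, ∃ χ, Dominant κ → IsIrrChar κ χ := by
    intro κ
    by_cases h : Dominant κ
    · obtain ⟨χ, hχ⟩ := exists_irr κ h
      exact ⟨χ, fun _ => hχ⟩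
    · exact ⟨0, fun h' => absurd h' h⟩
  choose χ hχ using hex
  have h1 := hχ lam hl
  have h2 := hχ mu hm
  unfold IsIrrChar at h1 h2
  have hf : (χ lam * alt (mu + rho 3)) * alt (rho 3) = alt (lam + rho 3) * alt (mu + rho 3) := by
    rw [← h1]; ring
  obtain ⟨m, hd, hm'⟩ := exists_decomp _ (AS_of _ _ _ hf)
  refine ⟨m nu, χ, m, hχ, hd, ?_, rfl⟩
  apply mul_right_cancel₀ alt_rho_ne
  rw [mul_assoc, h2, hm']
  unfold Finsupp.sum
  rw [Finset.sum_mul]
  apply Finset.sum_congr rfl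
  intro κ hκ
  have h3 := hχ κ (hd κ hκ)
  unfold IsIrrChar at h3
  rw [smul_mul_assoc, h3]

theorem isCG_iff (lam mu nu : Fin 3 → ℤ) (hl : Dominant lam) (hm : Dominant mu)
    (hn : Dominant nu) (x : ℤ) : IsCG lam mu nu x ↔
    x = St (lam 0) (lam 1) (lam 2) (mu 0) (mu 1) (mu 2) (nu 0) (nu 1) (nu 2) := by
  constructor
  · exact isCG_unique lam mu nu hl hm hn x
  · rintro rfl
    obtain ⟨y, hy⟩ := isCG_exists lam mu nu hl hm
    rwa [← isCG_unique lam mu nu hl hm hn y hy]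

end Pool.Agent.H471.CG
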